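import Pool.Agent.W533.PP.Stm

/-!
# Rank sums
-/

set_option autoImplicit false

namespace Pool.Agent.W366.PP

open Pool.Agent.W533.PP

theorem rank : RANK := by
  intro A f
  induction A using Finset.induction_on_max with
  | empty => simp
  | insert a s hs ih =>
    have ha : a ∉ s := fun h => lt_irrefl _ (hs a h)
    rw [Finset.sum_insert ha, Finset.card_insert_of_notMem ha, Finset.sum_range_succ, ← ih,
      add_comm]
    refine congrArg₂ (· + ·) (Finset.sum_congr rfl fun v hv => ?_) ?_
    · rw [Finset.filter_insert, if_neg (not_le.2 (hs v hv))]
    · rw [Finset.filter_true_of_mem, Finset.card_insert_of_notMem ha]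
      intro x hx
      rcases Finset.mem_insert.1 hx with h | h
      · exact h.le
      · exact (hs x h).le

theorem ranku : RANKU := by
  intro A f
  induction A using Finset.induction_on_min with
  | empty => simp
  | insert a s hs ih =>
    have ha : a ∉ s := fun h => lt_irrefl _ (hs a h)
    rw [Finset.sum_insert ha, Finset.card_insert_of_notMem ha, Finset.sum_range_succ, ← ih,
      add_comm]
    refine congrArg₂ (· + ·) (Finset.sum_congr rfl fun v hv => ?_) ?_
    · rw [Finset.filter_insert, if_neg (not_le.2 (hs v hv))]
    · rw [Finset.filter_true_of_mem, Finset.card_insert_of_notMem ha]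
      intro x hx
      rcases Finset.mem_insert.1 hx with h | h
      · exact h.ge
      · exact (hs x h).le

end Pool.Agent.W366.PP
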